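import Mathlib

/-!
# Product of average distance and girth

For a connected graph `G` on `n` vertices with a cycle, the product of the average distance and the
girth is at most the value for the cycle `C_n`, with equality exactly for `C_n`.
-/

namespace Pool.Agent.Results.MP_0edf05_co.AvgDistGirth

set_option linter.unusedSectionVars false

open SimpleGraph Finset

/-- The average distance: the mean of `d(u, v)` over all ordered (equivalently unordered) pairs of
distinct vertices; the terms `u = v` contribute `0` to the sum. -/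
noncomputable def avgDist {V : Type} [Fintype V] (G : SimpleGraph V) : ℚ :=
  (∑ u : V, ∑ v : V, (G.dist u v : ℚ)) / (Fintype.card V * (Fintype.card V - 1))

/-- The bound. -/
def bound (n : ℕ) : ℚ :=
  if Even n then (n : ℚ) ^ 3 / (4 * (n - 1)) else ((n : ℚ) ^ 2 + n) / 4

section sets

variable {V : Type} [DecidableEq V] {G : SimpleGraph V}

/-- Edge-connectedness of a vertex set: every nonempty proper subset is left by an edge. -/
def EC (G : SimpleGraph V) (S : Finset V) : Prop :=
  ∀ T ⊆ S, T.Nonempty → T ≠ S → ∃ x ∈ T, ∃ y ∈ S, y ∉ T ∧ G.Adj x y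

theorem EC.insert {S : Finset V} (hS : EC G S) {w x : V} (hx : x ∈ S) (hw : w ∉ S)
    (hxw : G.Adj x w) : EC G (insert w S) := by
  intro T hT hne hneq
  by_cases hwT : w ∈ T
  · by_cases hxT : x ∈ T
    · have h1 : T.erase w ⊆ S := by
        intro y hy
        rw [mem_erase] at hy
        exact (mem_insert.1 (hT hy.2)).resolve_left hy.1
      have hxw' : x ≠ w := fun h => hw (h ▸ hx)
      have h2 : (T.erase w).Nonempty := ⟨x, mem_erase.2 ⟨hxw', hxT⟩⟩
      have h3 : T.erase w ≠ S := by
        intro h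
        apply hneq
        rw [← h, insert_erase hwT]
      obtain ⟨a, ha, b, hb, hbT, hab⟩ := hS _ h1 h2 h3
      refine ⟨a, (mem_erase.1 ha).2, b, mem_insert_of_mem hb, ?_, hab⟩
      intro hbT'
      exact hbT (mem_erase.2 ⟨fun h => hw (h ▸ hb), hbT'⟩)
    · exact ⟨w, hwT, x, mem_insert_of_mem hx, hxT, hxw.symm⟩
  · have h1 : T ⊆ S := by
      intro y hy
      refine (mem_insert.1 (hT hy)).resolve_left ?_
      rintro rfl
      exact hwT hy
    by_cases hTS : T = S
    · subst hTS
      exact ⟨x, hx, w, mem_insert_self _ _, hwT, hxw⟩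
    · obtain ⟨a, ha, b, hb, hbT, hab⟩ := hS _ h1 hne hTS
      exact ⟨a, ha, b, mem_insert_of_mem hb, hbT, hab⟩

theorem sum_dist_le (hG : G.Connected) {S : Finset V} (hS : EC G S) {v : V} (hv : v ∈ S) :
    2 * ∑ u ∈ S, G.dist v u ≤ S.card * (S.card - 1) := by
  have key : ∀ k, 1 ≤ k → k ≤ S.card → ∃ T ⊆ S, v ∈ T ∧ T.card = k ∧
      (∀ u ∈ T, G.dist v u + 1 ≤ k) ∧ 2 * ∑ u ∈ T, G.dist v u ≤ k * (k - 1) := by
    intro k hk
    induction k, hk using Nat.le_induction with
    | base =>
      intro _
      exact ⟨{v}, by simpa using hv, by simp, by simp, by simp, by simp⟩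
    | succ k hk ih =>
      intro hkS
      obtain ⟨T, hTS, hvT, hcard, hdist, hsum⟩ := ih (by omega)
      have hne : T ≠ S := by
        rintro rfl
        omega
      obtain ⟨x, hx, y, hy, hyT, hxy⟩ := hS T hTS ⟨v, hvT⟩ hne
      have hdy : G.dist v y ≤ k := by
        have h1 := hG.dist_triangle (u := v) (v := x) (w := y)
        have h2 := hdist x hx
        have h3 : G.dist x y = 1 := dist_eq_one_iff_adj.2 hxy
        omega
      refine ⟨insert y T, insert_subset hy hTS, mem_insert_of_mem hvT, ?_, ?_, ?_⟩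
      · rw [card_insert_of_notMem hyT, hcard]
      · intro u hu
        rcases mem_insert.1 hu with rfl | hu
        · omega
        · have := hdist u hu; omega
      · rw [sum_insert hyT]
        have h4 : (k + 1) * (k + 1 - 1) = k * (k - 1) + 2 * k := by
          obtain ⟨j, rfl⟩ : ∃ j, k = j + 1 := ⟨k - 1, by omega⟩
          simp only [Nat.add_sub_cancel]
          ring
        rw [h4]
        omega
  obtain ⟨T, hTS, _, hcard, _, hsum⟩ := key S.card (card_pos.2 ⟨v, hv⟩) le_rfl
  rwa [eq_of_subset_of_card_le hTS hcard.ge] at hsum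

/-- The sum of distances over ordered pairs. -/
noncomputable def W (G : SimpleGraph V) (S : Finset V) : ℕ := ∑ u ∈ S, ∑ v ∈ S, G.dist u v

theorem W_insert {S : Finset V} {w : V} (hw : w ∉ S) :
    W G (insert w S) = W G S + 2 * ∑ u ∈ S, G.dist w u := by
  unfold W
  rw [sum_insert hw, sum_insert hw, SimpleGraph.dist_self]
  have h : ∑ u ∈ S, ∑ v ∈ insert w S, G.dist u v =
      ∑ u ∈ S, G.dist w u + ∑ u ∈ S, ∑ v ∈ S, G.dist u v := by
    rw [← sum_add_distrib]
    refine sum_congr rfl (fun u _ => ?_)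
    rw [sum_insert hw, SimpleGraph.dist_comm]
  rw [h]
  ring

theorem W_insert_le (hG : G.Connected) {S : Finset V} (hS : EC G S) {w x : V} (hx : x ∈ S)
    (hw : w ∉ S) (hxw : G.Adj x w) : W G (insert w S) ≤ W G S + S.card * (S.card + 1) := by
  rw [W_insert hw]
  have h := sum_dist_le hG (hS.insert hx hw hxw) (mem_insert_self w S)
  rw [sum_insert hw, SimpleGraph.dist_self, card_insert_of_notMem hw, zero_add,
    Nat.add_sub_cancel] at h
  nlinarith

end sets

/-! ## Arithmetic -/

theorem arith (N : ℕ) (hN : 1 ≤ N) :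
    N ^ 2 * (N ^ 2 / 4) + N ^ 2 * (N + 1) < (N + 1) ^ 2 * ((N + 1) ^ 2 / 4) := by
  rcases Nat.even_or_odd' N with ⟨m, rfl | rfl⟩
  · have h1 : (2 * m) ^ 2 / 4 = m ^ 2 := by
      rw [show (2 * m) ^ 2 = 4 * m ^ 2 by ring]; omega
    have h2 : (2 * m + 1) ^ 2 / 4 = m ^ 2 + m := by
      rw [show (2 * m + 1) ^ 2 = 4 * (m ^ 2 + m) + 1 by ring]; omega
    rw [h1, h2]
    nlinarith
  · have h1 : (2 * m + 1) ^ 2 / 4 = m ^ 2 + m := by
      rw [show (2 * m + 1) ^ 2 = 4 * (m ^ 2 + m) + 1 by ring]; omega
    have h2 : (2 * m + 1 + 1) ^ 2 / 4 = (m + 1) ^ 2 := by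
      rw [show (2 * m + 1 + 1) ^ 2 = 4 * (m + 1) ^ 2 by ring]; omega
    rw [h1, h2]
    nlinarith

theorem sum_min (g : ℕ) : ∑ k ∈ range g, min k (g - k) = g ^ 2 / 4 := by
  induction g using Nat.twoStepInduction with
  | zero => simp
  | one => simp
  | more g ih _ =>
    rw [sum_range_succ, sum_range_succ']
    have h1 : ∑ k ∈ range g, min (k + 1) (g + 2 - (k + 1)) = ∑ k ∈ range g, (min k (g - k) + 1) := by
      refine sum_congr rfl (fun k hk => ?_)
      rw [mem_range] at hk
      omega
    rw [h1, sum_add_distrib, ih]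
    have h2 : (g + 2) ^ 2 = g ^ 2 + 4 * (g + 1) := by ring
    rw [h2]
    simp
    omega

/-! ## The cycle as a periodic sequence -/

section cyc

variable {V : Type} [DecidableEq V] {G : SimpleGraph V}

theorem exists_seq (hc : ¬ G.IsAcyclic) : ∃ c : ℕ → V,
    (∀ i, G.Adj (c i) (c (i + 1))) ∧ (∀ i, c (i + G.girth) = c i) ∧
    (∀ i < G.girth, ∀ j < G.girth, c i = c j → i = j) := by
  obtain ⟨a, w, hw, hg⟩ := exists_girth_eq_length.2 hc
  have h3 := hw.three_le_length
  rw [hg]
  refine ⟨fun i => w.getVert (i % w.length), ?_, ?_, ?_⟩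
  · intro i
    have hlt : i % w.length < w.length := Nat.mod_lt _ (by omega)
    have h1 := w.adj_getVert_succ hlt
    by_cases h : i % w.length + 1 < w.length
    · have h2 : (i + 1) % w.length = i % w.length + 1 := by
        rw [Nat.add_mod, Nat.mod_eq_of_lt (show 1 < w.length by omega), Nat.mod_eq_of_lt h]
      simpa [h2] using h1
    · have h4 : i % w.length + 1 = w.length := by omega
      have h2 : (i + 1) % w.length = 0 := by
        rw [Nat.add_mod, Nat.mod_eq_of_lt (show 1 < w.length by omega), h4, Nat.mod_self]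
      rw [h4, Walk.getVert_length] at h1
      simpa [h2] using h1
  · intro i
    simp
  · intro i hi j hj hij
    simp only [Nat.mod_eq_of_lt hi, Nat.mod_eq_of_lt hj] at hij
    exact hw.getVert_injOn' (show i ≤ w.length - 1 by omega) (show j ≤ w.length - 1 by omega) hij

theorem dist_le_k (hG : G.Connected) {c : ℕ → V} (hadj : ∀ i, G.Adj (c i) (c (i + 1)))
    (i k : ℕ) : G.dist (c i) (c (i + k)) ≤ k := by
  induction k with
  | zero => simp
  | succ k ih =>
    have h1 := hG.dist_triangle (u := c i) (v := c (i + k)) (w := c (i + k + 1))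
    have h2 : G.dist (c (i + k)) (c (i + k + 1)) = 1 := dist_eq_one_iff_adj.2 (hadj (i + k))
    rw [← add_assoc]
    omega

theorem dist_le_min (hG : G.Connected) {c : ℕ → V} (hadj : ∀ i, G.Adj (c i) (c (i + 1)))
    {g : ℕ} (hper : ∀ i, c (i + g) = c i) (i k : ℕ) (hk : k ≤ g) :
    G.dist (c i) (c (i + k)) ≤ min k (g - k) := by
  refine le_min (dist_le_k hG hadj i k) ?_
  have h1 := dist_le_k hG hadj (i + k) (g - k)
  rw [show i + k + (g - k) = i + g by omega, hper, SimpleGraph.dist_comm] at h1
  exact h1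

/-- The vertex set of the cycle. -/
def CC (c : ℕ → V) (g : ℕ) : Finset V := (range g).image c

theorem mem_CC {c : ℕ → V} {g : ℕ} (hg : 0 < g) (hper : ∀ i, c (i + g) = c i) (i : ℕ) :
    c i ∈ CC c g := by
  have h : ∀ q r, c (r + g * q) = c r := by
    intro q r
    induction q with
    | zero => simp
    | succ q ih => rw [mul_add, mul_one, ← add_assoc, hper, ih]
  rw [← Nat.mod_add_div i g, h]
  exact mem_image_of_mem c (mem_range.2 (Nat.mod_lt _ hg))

theorem card_CC {c : ℕ → V} {g : ℕ} (hinj : ∀ i < g, ∀ j < g, c i = c j → i = j) :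
    (CC c g).card = g := by
  rw [CC, card_image_of_injOn, card_range]
  intro i hi j hj hij
  exact hinj i (by simpa using hi) j (by simpa using hj) hij

theorem EC_CC {c : ℕ → V} {g : ℕ} (hg : 0 < g) (hadj : ∀ i, G.Adj (c i) (c (i + 1)))
    (hper : ∀ i, c (i + g) = c i) : EC G (CC c g) := by
  intro T hT hne hneq
  by_contra hcon
  push Not at hcon
  apply hneq
  apply Subset.antisymm hT
  obtain ⟨x, hx⟩ := hne
  obtain ⟨i, hi, rfl⟩ := mem_image.1 (hT hx)
  have hstep : ∀ k, c (i + k) ∈ T := by
    intro k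
    induction k with
    | zero => exact hx
    | succ k ih =>
      by_contra h
      exact hcon _ ih _ (mem_CC hg hper (i + (k + 1))) h (hadj (i + k))
  intro y hy
  obtain ⟨j, hj, rfl⟩ := mem_image.1 hy
  have hig : i < g := by simpa using hi
  have := hstep (g - i + j)
  rwa [show i + (g - i + j) = j + g by omega, hper] at this

theorem sum_shift {c : ℕ → V} {g : ℕ} (hper : ∀ i, c (i + g) = c i) (f : V → ℕ) (i : ℕ) :
    ∑ k ∈ range g, f (c (i + k)) = ∑ k ∈ range g, f (c k) := by
  induction i with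
  | zero => simp
  | succ i ih =>
    rw [← ih]
    have h1 := sum_range_succ (fun k => f (c (i + k))) g
    have h2 := sum_range_succ' (fun k => f (c (i + k))) g
    rw [h1] at h2
    simp only [add_zero, hper] at h2
    have h3 : ∑ k ∈ range g, f (c (i + (k + 1))) = ∑ k ∈ range g, f (c (i + 1 + k)) := by
      refine sum_congr rfl (fun k _ => ?_)
      rw [show i + (k + 1) = i + 1 + k by ring]
    rw [← h3]
    omega

theorem W_CC {c : ℕ → V} {g : ℕ} (hper : ∀ i, c (i + g) = c i)
    (hinj : ∀ i < g, ∀ j < g, c i = c j → i = j) :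
    W G (CC c g) = ∑ i ∈ range g, ∑ k ∈ range g, G.dist (c i) (c (i + k)) := by
  have hI : Set.InjOn c (range g : Set ℕ) := by
    intro i hi j hj hij
    exact hinj i (by simpa using hi) j (by simpa using hj) hij
  unfold W CC
  rw [sum_image hI]
  refine sum_congr rfl (fun i _ => ?_)
  rw [sum_image hI, sum_shift hper (fun v => G.dist (c i) v) i]

theorem W_CC_le (hG : G.Connected) {c : ℕ → V} (hadj : ∀ i, G.Adj (c i) (c (i + 1)))
    {g : ℕ} (hper : ∀ i, c (i + g) = c i) (hinj : ∀ i < g, ∀ j < g, c i = c j → i = j) :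
    W G (CC c g) ≤ g * (g ^ 2 / 4) := by
  rw [W_CC hper hinj]
  calc _ ≤ ∑ i ∈ range g, (g ^ 2 / 4) := by
        refine sum_le_sum (fun i _ => ?_)
        rw [← sum_min]
        exact sum_le_sum (fun k hk => dist_le_min hG hadj hper i k (mem_range.1 hk).le)
    _ = g * (g ^ 2 / 4) := by simp

end cyc

/-! ## The main inequality -/

section main

variable {V : Type} [Fintype V] [DecidableEq V] {G : SimpleGraph V}

theorem chain (hG : G.Connected) (hc : ¬ G.IsAcyclic) : ∀ k, G.girth ≤ k →
    k ≤ Fintype.card V → ∃ S : Finset V, S.card = k ∧ EC G S ∧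
      G.girth * W G S ≤ k ^ 2 * (k ^ 2 / 4) ∧
      (G.girth < k → G.girth * W G S < k ^ 2 * (k ^ 2 / 4)) := by
  obtain ⟨c, hadj, hper, hinj⟩ := exists_seq hc
  have h3 : 3 ≤ G.girth := three_le_girth hc
  intro k hk
  induction k, hk using Nat.le_induction with
  | base =>
    intro _
    refine ⟨CC c G.girth, card_CC hinj, EC_CC (by omega) hadj hper, ?_, fun h => ?_⟩
    · have := W_CC_le hG hadj hper hinj
      calc _ ≤ G.girth * (G.girth * (G.girth ^ 2 / 4)) := Nat.mul_le_mul_left _ this
        _ = _ := by ring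
    · exact absurd h (lt_irrefl _)
  | succ k hk ih =>
    intro hkn
    obtain ⟨S, hcard, hEC, hle, _⟩ := ih (by omega)
    have hne : S.Nonempty := by
      rw [← card_pos]; omega
    obtain ⟨y, hy⟩ : ∃ y, y ∉ S := by
      by_contra h
      push Not at h
      have : S = univ := eq_univ_iff_forall.2 h
      rw [this, card_univ] at hcard
      omega
    obtain ⟨x, hx⟩ := hne
    obtain ⟨p⟩ := hG.preconnected x y
    obtain ⟨d, _, hd1, hd2⟩ := p.exists_boundary_dart (S : Set V) hx hy
    have hd1' : d.fst ∈ S := hd1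
    have hd2' : d.snd ∉ S := hd2
    have hle2 := W_insert_le hG hEC hd1' hd2' d.adj
    have key : G.girth * W G (insert d.snd S) < (k + 1) ^ 2 * ((k + 1) ^ 2 / 4) := by
      have h1 : G.girth * W G (insert d.snd S) ≤
          G.girth * W G S + G.girth * (k * (k + 1)) := by
        rw [← mul_add]
        rw [hcard] at hle2
        exact Nat.mul_le_mul_left _ hle2
      have h2 : G.girth * (k * (k + 1)) ≤ k ^ 2 * (k + 1) := by
        calc _ ≤ k * (k * (k + 1)) := Nat.mul_le_mul_right _ hk
          _ = _ := by ring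
      have h4 := arith k (by omega)
      omega
    refine ⟨insert d.snd S, ?_, hEC.insert hd1' hd2' d.adj, key.le, fun _ => key⟩
    rw [card_insert_of_notMem hd2', hcard]

theorem girth_le_card (hc : ¬ G.IsAcyclic) : G.girth ≤ Fintype.card V := by
  obtain ⟨c, hadj, hper, hinj⟩ := exists_seq hc
  rw [← card_CC hinj]
  exact card_le_univ _

theorem W_univ_le (hG : G.Connected) (hc : ¬ G.IsAcyclic) :
    G.girth * W G univ ≤ Fintype.card V ^ 2 * (Fintype.card V ^ 2 / 4) ∧
    (G.girth < Fintype.card V →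
      G.girth * W G univ < Fintype.card V ^ 2 * (Fintype.card V ^ 2 / 4)) := by
  obtain ⟨S, hcard, _, h1, h2⟩ := chain hG hc (Fintype.card V) (girth_le_card hc) le_rfl
  rw [(card_eq_iff_eq_univ S).1 hcard] at h1 h2
  exact ⟨h1, h2⟩

end main

/-! ## Equality -/

section eq

variable {V : Type} [Fintype V] [DecidableEq V] {G : SimpleGraph V}

theorem iso_of_eq (hG : G.Connected) (hc : ¬ G.IsAcyclic)
    (heq : G.girth * W G univ = Fintype.card V ^ 2 * (Fintype.card V ^ 2 / 4)) :
    Nonempty (G ≃g cycleGraph (Fintype.card V)) := by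
  have hgn : G.girth = Fintype.card V := by
    by_contra h
    have h1 := girth_le_card hc
    have h2 := (W_univ_le hG hc).2 (by omega)
    omega
  obtain ⟨c, hadj, hper, hinj⟩ := exists_seq hc
  have h3 : 3 ≤ G.girth := three_le_girth hc
  rw [hgn] at hper hinj heq h3
  set n := Fintype.card V with hn
  have hCC : CC c n = univ := by
    rw [← card_eq_iff_eq_univ, card_CC hinj]
  have hW : W G univ = n * (n ^ 2 / 4) := by
    have h4 : n * W G univ = n * (n * (n ^ 2 / 4)) := by rw [heq]; ring
    exact Nat.eq_of_mul_eq_mul_left (by omega) h4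
  rw [← hCC, W_CC hper hinj] at hW
  have hsum : ∑ i ∈ range n, ∑ k ∈ range n, G.dist (c i) (c (i + k)) =
      ∑ i ∈ range n, ∑ k ∈ range n, min k (n - k) := by
    rw [hW, sum_min]
    simp
  have hle : ∀ i k, k < n → G.dist (c i) (c (i + k)) ≤ min k (n - k) :=
    fun i k hk => dist_le_min hG hadj hper i k hk.le
  have h5 := (sum_eq_sum_iff_of_le (fun i _ =>
    sum_le_sum (fun k hk => hle i k (mem_range.1 hk)))).1 hsum
  have hdist : ∀ i < n, ∀ k < n, G.dist (c i) (c (i + k)) = min k (n - k) := by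
    intro i hi k hk
    have h6 := (sum_eq_sum_iff_of_le (fun k hk => hle i k (mem_range.1 hk))).1
      (h5 i (mem_range.2 hi))
    exact h6 k (mem_range.2 hk)
  have hbij : Function.Bijective (fun i : Fin n => c i.val) := by
    rw [Fintype.bijective_iff_injective_and_card]
    refine ⟨fun i j hij => Fin.ext (hinj i.val i.isLt j.val j.isLt hij), by simp [hn]⟩
  have hrel : ∀ i j : Fin n, G.Adj (c i.val) (c j.val) ↔ (cycleGraph n).Adj i j := by
    intro i j
    rw [cycleGraph_adj', ← dist_eq_one_iff_adj]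
    have hi := i.isLt
    have hj := j.isLt
    by_cases hij : i.val ≤ j.val
    · have h7 := hdist i.val hi (j.val - i.val) (by omega)
      rw [show i.val + (j.val - i.val) = j.val by omega] at h7
      rw [h7, Fin.coe_sub_iff_le.2 (show i ≤ j from hij)]
      by_cases he : i.val = j.val
      · have : i = j := Fin.ext he
        subst this
        have h8 : (i - i).val = 0 := by
          rw [Fin.coe_sub_iff_le.2 le_rfl]; omega
        rw [h8]
        omega
      · rw [Fin.coe_sub_iff_lt.2 (show i < j by rw [Fin.lt_def]; omega)]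
        omega
    · have h7 := hdist i.val hi (n + j.val - i.val) (by omega)
      rw [show i.val + (n + j.val - i.val) = j.val + n by omega, hper] at h7
      rw [h7, Fin.coe_sub_iff_le.2 (show j ≤ i by rw [Fin.le_def]; omega),
        Fin.coe_sub_iff_lt.2 (show j < i by rw [Fin.lt_def]; omega)]
      omega
  exact ⟨(RelIso.symm ⟨Equiv.ofBijective _ hbij, fun {i j} => hrel i j⟩)⟩

/-- Potential on the cycle graph. -/
def pot {n : ℕ} (i j : Fin n) : ℕ := min (j - i).val (n - (j - i).val)

theorem sub_val {n : ℕ} (a b : Fin n) :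
    (a - b).val = if b.val ≤ a.val then a.val - b.val else n + a.val - b.val := by
  split_ifs with h
  · exact Fin.coe_sub_iff_le.2 h
  · exact Fin.coe_sub_iff_lt.2 (by rw [Fin.lt_def]; omega)

theorem pot_step {n : ℕ} (i i' j : Fin n) (h : (cycleGraph n).Adj i i') :
    pot i j ≤ pot i' j + 1 := by
  rw [cycleGraph_adj', sub_val, sub_val] at h
  unfold pot
  rw [sub_val, sub_val]
  have hi := i.isLt
  have hj := j.isLt
  have hi' := i'.isLt
  split_ifs at h ⊢ <;> omega

theorem pot_le_length {n : ℕ} {i j : Fin n} (w : (cycleGraph n).Walk i j) :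
    pot i j ≤ w.length := by
  induction w with
  | nil =>
    unfold pot
    rw [sub_val]
    simp
  | cons h p ih =>
    rw [Walk.length_cons]
    exact (pot_step _ _ _ h).trans (Nat.add_le_add_right ih 1)

theorem le_dist_of_iso (hG : G.Connected) {n : ℕ} (e : G ≃g cycleGraph n) (u v : V) :
    pot (e u) (e v) ≤ G.dist u v := by
  obtain ⟨w, hw⟩ := hG.exists_walk_length_eq_dist u v
  have h := pot_le_length (w.map e.toHom)
  rw [Walk.length_map, hw] at h
  exact h

theorem le_W_of_iso (hG : G.Connected) {n : ℕ} (e : G ≃g cycleGraph n) :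
    n * (n ^ 2 / 4) ≤ W G univ := by
  have h1 : ∀ i : Fin n, ∑ j : Fin n, pot i j = n ^ 2 / 4 := by
    intro i
    have hn : NeZero n := ⟨by have := i.isLt; omega⟩
    have h2 : ∑ j : Fin n, pot i j = ∑ k : Fin n, min k.val (n - k.val) :=
      (Equiv.subRight i).sum_comp (fun k : Fin n => min k.val (n - k.val))
    rw [h2, Fin.sum_univ_eq_sum_range (fun k => min k (n - k)) n, sum_min]
  calc n * (n ^ 2 / 4) = ∑ i : Fin n, ∑ j : Fin n, pot i j := by
        simp only [h1]; simp
    _ = ∑ u : V, ∑ v : V, pot (e u) (e v) := by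
        rw [← e.toEquiv.sum_comp (fun i => ∑ j : Fin n, pot i j)]
        refine sum_congr rfl (fun u _ => ?_)
        exact (e.toEquiv.sum_comp (fun j => pot (e u) j)).symm
    _ ≤ W G univ := sum_le_sum (fun u _ => sum_le_sum (fun v _ => le_dist_of_iso hG e u v))

theorem girth_cycleGraph {n : ℕ} (hn : 3 ≤ n) (hc : ¬ (cycleGraph n).IsAcyclic) :
    n ≤ (cycleGraph n).girth := by
  obtain ⟨a, w, hw, hg⟩ := exists_girth_eq_length.2 hc
  rw [hg]
  obtain ⟨m, rfl⟩ : ∃ m, n = m + 3 := ⟨n - 3, by omega⟩
  have hclosed : ∀ v ∈ w.support, ∀ u, (cycleGraph (m + 3)).Adj v u → u ∈ w.support := by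
    intro v hv u hvu
    have h1 := hw.ncard_neighborSet_toSubgraph_eq_two hv
    have h2 : ((cycleGraph (m + 3)).neighborSet v).ncard = 2 := by
      rw [Set.ncard_eq_toFinset_card']
      exact cycleGraph_degree_three_le
    have h3 : w.toSubgraph.neighborSet v = (cycleGraph (m + 3)).neighborSet v := by
      refine Set.eq_of_subset_of_ncard_le (Subgraph.neighborSet_subset _ _) ?_ (Set.toFinite _)
      rw [h1, h2]
    have h4 : u ∈ w.toSubgraph.neighborSet v := by
      rw [h3]; exact hvu
    have h5 : u ∈ w.toSubgraph.verts := w.toSubgraph.edge_vert h4.symm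
    simpa using h5
  have hall : ∀ v, v ∈ w.support := by
    intro v
    by_contra h
    obtain ⟨p⟩ := (cycleGraph_preconnected (n := m + 3)) a v
    obtain ⟨d, _, hd1, hd2⟩ := p.exists_boundary_dart {x | x ∈ w.support} (w.start_mem_support) h
    exact hd2 (hclosed _ hd1 _ d.adj)
  have htail : ∀ v, v ∈ w.support.tail := by
    intro v
    have h1 := hall v
    rw [← Walk.cons_tail_support, List.mem_cons] at h1
    rcases h1 with rfl | h1
    · exact Walk.end_mem_tail_support hw.not_nil
    · exact h1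
  have h6 : (univ : Finset (Fin (m + 3))) ⊆ w.support.tail.toFinset := by
    intro v _
    simpa using htail v
  have h7 := card_le_card h6
  have h8 := List.toFinset_card_le w.support.tail
  rw [card_univ, Fintype.card_fin] at h7
  rw [List.length_tail, Walk.length_support] at h8
  omega

theorem eq_of_iso (hG : G.Connected) (hc : ¬ G.IsAcyclic)
    (h : Nonempty (G ≃g cycleGraph (Fintype.card V))) :
    G.girth * W G univ = Fintype.card V ^ 2 * (Fintype.card V ^ 2 / 4) := by
  obtain ⟨e⟩ := h
  set n := Fintype.card V with hn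
  have h3 : 3 ≤ G.girth := three_le_girth hc
  have h4 : G.girth ≤ n := girth_le_card hc
  have hc' : ¬ (cycleGraph n).IsAcyclic := by
    rw [← girth_eq_zero, ← e.girth_eq]
    omega
  have h5 : n ≤ G.girth := by
    rw [e.girth_eq]
    exact girth_cycleGraph (by omega) hc'
  have h6 := le_W_of_iso hG e
  have h7 := (W_univ_le hG hc).1
  refine le_antisymm h7 ?_
  calc n ^ 2 * (n ^ 2 / 4) = n * (n * (n ^ 2 / 4)) := by ring
    _ ≤ G.girth * W G univ := Nat.mul_le_mul h5 h6

end eq

theorem bound_eq (n : ℕ) (hn : 3 ≤ n) :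
    bound n * ((n : ℚ) * (n - 1)) = ((n ^ 2 * (n ^ 2 / 4) : ℕ) : ℚ) := by
  have h1 : (n : ℚ) - 1 ≠ 0 := by
    have : (3 : ℚ) ≤ n := by exact_mod_cast hn
    linarith
  rcases Nat.even_or_odd' n with ⟨m, hm | hm⟩
  · have he : Even n := ⟨m, by omega⟩
    have h2 : n ^ 2 / 4 = m ^ 2 := by
      rw [hm, show (2 * m) ^ 2 = 4 * m ^ 2 by ring]; omega
    rw [bound, if_pos he, h2]
    have h3 : (n : ℚ) = 2 * m := by exact_mod_cast hm
    push_cast
    field_simp
    rw [h3]
    ring
  · have he : ¬ Even n := by rw [Nat.not_even_iff_odd]; exact ⟨m, hm⟩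
    have h2 : n ^ 2 / 4 = m ^ 2 + m := by
      rw [hm, show (2 * m + 1) ^ 2 = 4 * (m ^ 2 + m) + 1 by ring]; omega
    rw [bound, if_neg he, h2]
    have h3 : (n : ℚ) = 2 * m + 1 := by exact_mod_cast hm
    push_cast
    rw [h3]
    ring

/-- **Product of average distance and girth.** -/
theorem result {V : Type} [Fintype V] (G : SimpleGraph V) (hG : G.Connected)
    (hc : ¬ G.IsAcyclic) :
    avgDist G * G.girth ≤ bound (Fintype.card V) ∧
      (avgDist G * G.girth = bound (Fintype.card V) ↔
        Nonempty (G ≃g cycleGraph (Fintype.card V))) := by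
  classical
  have h3 : 3 ≤ Fintype.card V := (three_le_girth hc).trans (girth_le_card hc)
  set n := Fintype.card V with hn
  have hn3 : (3 : ℚ) ≤ n := by exact_mod_cast h3
  have hpos : (0 : ℚ) < (n : ℚ) * (n - 1) := by
    apply mul_pos <;> linarith
  have hb := bound_eq n h3
  have hW : avgDist G * G.girth * ((n : ℚ) * (n - 1)) = ((G.girth * W G univ : ℕ) : ℚ) := by
    have h4 : (n : ℚ) - 1 ≠ 0 := by linarith
    have h5 : (n : ℚ) ≠ 0 := by linarith
    rw [avgDist, ← hn]
    unfold W
    push_cast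
    field_simp
  constructor
  · rw [← mul_le_mul_iff_left₀ hpos, hW, hb]
    exact_mod_cast (W_univ_le hG hc).1
  · rw [← mul_left_inj' hpos.ne', hW, hb]
    constructor
    · intro h
      exact iso_of_eq hG hc (by exact_mod_cast h)
    · intro h
      exact_mod_cast eq_of_iso hG hc h

end Pool.Agent.Results.MP_0edf05_co.AvgDistGirth
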